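import Pool.Agent.H6.N4D.TB

/-! Row ORI of `n4d_modules`: the oriented relations. -/

set_option autoImplicit false

open Finset Pool.Agent.H6.N4D

namespace Pool.Agent.H79.N4D

theorem cnt_or7 (S : Par) {E A B C D F G H : ℤ → Prop}
    (h : ∀ t ∈ S.I, E t → A t ∨ B t ∨ C t ∨ D t ∨ F t ∨ G t ∨ H t) :
    S.cnt E ≤ S.cnt A + S.cnt B + S.cnt C + S.cnt D + S.cnt F + S.cnt G + S.cnt H := by
  have h1 := Par.cnt_mono (S := S) h
  have h2 := Par.cnt_or (S := S) A (fun t => B t ∨ C t ∨ D t ∨ F t ∨ G t ∨ H t)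
  have h3 := Par.cnt_or (S := S) B (fun t => C t ∨ D t ∨ F t ∨ G t ∨ H t)
  have h4 := Par.cnt_or (S := S) C (fun t => D t ∨ F t ∨ G t ∨ H t)
  have h5 := Par.cnt_or (S := S) D (fun t => F t ∨ G t ∨ H t)
  have h6 := Par.cnt_or (S := S) F (fun t => G t ∨ H t)
  have h7 := Par.cnt_or (S := S) G H
  linarith

/-- counting for one shift `v` -/
theorem one_shift (S : Par) {R O : ℤ → Prop} {f : ℤ → ℝ} {θ : ℤ → ℝ} {η ε κ s : ℝ} {k : ℕ}
    (v : ℤ) (h : ∀ t ∈ S.I, t + v ∈ S.I → t + 2 ^ k ∈ S.I → t + v + 2 ^ k ∈ S.I → R t →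
      R (t + 2 ^ k) → |f t - s| ≤ 1 / 4 → |f (t + v) - s| ≤ 1 / 4 → η ≤ nd (2 * θ (t + v)) → O t)
    (hf : S.cnt (fun t => 1 / 4 < |f t - s|) ≤ κ * S.N)
    (hg : S.cnt (fun t => ¬ (η ≤ nd (θ t) ∧ η ≤ nd (2 * θ t) ∧ η ≤ nd (3 * θ t))) ≤ ε * S.N)
    (hk : (2 : ℝ) ^ k ≤ ε * S.N) :
    S.cnt (fun t => t + v ∈ S.I ∧ ¬ O t) ≤
      2 * S.cnt (fun t => t + v ∈ S.I ∧ ¬ R t) + (2 * κ + 3 * ε) * S.N := by
  have h7 := cnt_or7 S (E := fun t => t + v ∈ S.I ∧ ¬ O t)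
    (A := fun t => t + 2 ^ k ∉ S.I)
    (B := fun t => t + v ∈ S.I ∧ t + v + 2 ^ k ∉ S.I)
    (C := fun t => t + v ∈ S.I ∧ ¬ R t)
    (D := fun t => t + 2 ^ k ∈ S.I ∧ (t + 2 ^ k + v ∈ S.I ∧ ¬ R (t + 2 ^ k)))
    (F := fun t => 1 / 4 < |f t - s|)
    (G := fun t => t + v ∈ S.I ∧ 1 / 4 < |f (t + v) - s|)
    (H := fun t => t + v ∈ S.I ∧ ¬ (η ≤ nd (θ (t + v)) ∧ η ≤ nd (2 * θ (t + v)) ∧
      η ≤ nd (3 * θ (t + v)))) (by
    rintro t ht ⟨h1, h2⟩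
    by_contra hcon
    push Not at hcon
    obtain ⟨c1, c2, c3, c4, c5, c6, c7⟩ := hcon
    have e : t + 2 ^ k + v = t + v + 2 ^ k := by ring
    refine h2 (h t ht h1 c1 (c2 h1) (c3 h1) (c4 c1 (by rw [e]; exact c2 h1)) c5 (c6 h1)
      (c7 h1).2.1))
  have b1 : S.cnt (fun t => t + 2 ^ k ∉ S.I) ≤ ε * S.N := by
    refine (Par.cnt_out (S := S) (2 ^ k)).trans ?_
    rw [show (((2 : ℤ) ^ k : ℤ) : ℝ) = (2 : ℝ) ^ k by push_cast; rfl,
      abs_of_nonneg (by positivity)]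
    exact hk
  have b2 := (Par.cnt_shift (S := S) (fun t => t + 2 ^ k ∉ S.I) v).trans b1
  have b4 := Par.cnt_shift (S := S) (fun t => t + v ∈ S.I ∧ ¬ R t) (2 ^ k)
  have b6 := (Par.cnt_shift (S := S) (fun t => 1 / 4 < |f t - s|) v).trans hf
  have b7 := (Par.cnt_shift (S := S) (fun t => ¬ (η ≤ nd (θ t) ∧ η ≤ nd (2 * θ t) ∧
    η ≤ nd (3 * θ t))) v).trans hg
  have e7 : (2 * κ + 3 * ε) * S.N = κ * S.N + κ * S.N + ε * S.N + ε * S.N + ε * S.N := by ring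
  rw [e7]
  linarith

theorem pf_ORI (hORE : T_ORE) (hSIZ : T_SIZ) (hWTS : T_WTS) : T_ORI := by
  intro K ε₁ η ε hK hε₁ hε₁1 hη hε
  obtain ⟨X₁, h1⟩ := hORE K ε₁ η hK hε₁ hε₁1 hη
  obtain ⟨X₂, h2⟩ := hSIZ
  obtain ⟨X₃, h3⟩ := LL_large (1 / ε)
  refine ⟨max X₁ (max X₂ X₃), ?_⟩
  intro S ε₀ κ s k θ φ hOk hSK hX hε₀ hε₀1 hκ hk hs3 hs7 hRel hF
  have hX1 : X₁ ≤ S.X := (le_max_left _ _).trans hX
  have hX2 : X₂ ≤ S.X := (le_max_left _ _).trans ((le_max_right _ _).trans hX)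
  have hX3 : X₃ ≤ S.X := (le_max_right _ _).trans ((le_max_right _ _).trans hX)
  obtain ⟨hE, hSh⟩ := h1 S ε₀ s k θ φ hOk hSK hX1 hε₀ hε₀1 hk hs3 hs7
  obtain ⟨z1, z2, z3, z4, z5, z6, z7, z8, z9, z10, z11, z12, z13⟩ := h2 S hOk hX2
  have hL : 1 / ε ≤ S.L := h3 S.X hX3
  have hN : 0 < S.N := z12
  have hkN : (2 : ℝ) ^ k ≤ ε * S.N := by
    have hh := hOk.hh
    have a1 : (2 : ℝ) ^ k ≤ 2 ^ S.J := pow_le_pow_right₀ (by norm_num) hk.le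
    have a2 : S.h * 2 ^ S.J ≤ 1 := by
      rw [hOk.hJ]
      have := Real.log_two_lt_d9
      linarith
    have a3 : 1 ≤ ε * S.L := by
      rw [div_le_iff₀ hε] at hL
      linarith
    have a4 : 12 * (S.K : ℝ) * S.L ≤ S.N * S.h := hOk.hI1
    have a5 : (1 : ℝ) ≤ S.K := by exact_mod_cast hOk.hK
    have a6 : S.L ≤ 12 * (S.K : ℝ) * S.L := by nlinarith
    have a7 : 1 ≤ ε * (S.N * S.h) := by
      calc (1 : ℝ) ≤ ε * S.L := a3
        _ ≤ ε * (S.N * S.h) := mul_le_mul_of_nonneg_left (a6.trans a4) hε.le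
    have a8 : S.h * 2 ^ k ≤ S.h * (ε * S.N) := by
      calc S.h * 2 ^ k ≤ S.h * 2 ^ S.J := mul_le_mul_of_nonneg_left a1 hh.le
        _ ≤ 1 := a2
        _ ≤ ε * (S.N * S.h) := a7
        _ = S.h * (ε * S.N) := by ring
    exact le_of_mul_le_mul_left a8 hh
  obtain ⟨W, hW⟩ : ∃ W : ℝ, W = ∑ p ∈ S.Q, 1 / (p : ℝ) := ⟨_, rfl⟩
  have hW0 : 0 ≤ W := by rw [hW]; exact Finset.sum_nonneg fun p _ => by positivity
  rw [← hW]
  have hbase : 5 * (κ + ε) * S.N ≤ 10 * (1 + W) * (κ + ε) * S.N := by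
    refine mul_le_mul_of_nonneg_right ?_ hN.le
    have : 0 ≤ κ + ε := by linarith
    nlinarith [mul_nonneg hW0 this]
  -- one edge
  have hedge : ∀ p : ℕ, p ∈ S.Q ∨ p = 2 →
      S.cnt (fun t => t - S.l p ∈ S.I ∧ ¬ OEd S ε₀ (fun t => oo S ε₁ θ k t * θ t)
        (fun t => oo S ε₁ θ k t * φ t) p t) ≤
      2 * S.cnt (fun t => t - S.l p ∈ S.I ∧ ¬ EdR S ε₀ θ φ p t) + (2 * κ + 3 * ε) * S.N := by
    intro p hp
    exact one_shift S (R := fun t => EdR S ε₀ θ φ p t)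
      (O := fun t => OEd S ε₀ (fun t => oo S ε₁ θ k t * θ t)
        (fun t => oo S ε₁ θ k t * φ t) p t) (f := F1 S ε₁ θ k) (θ := θ) (s := s) (k := k)
      (-S.l p) (fun t ht a b c d e f g i => hE p t hp ht a b c d e f g i) hF hRel.gen hkN
  refine ⟨?_, ?_, ?_⟩
  · intro w hw
    have hwh : (w : ℝ) * S.h ≤ S.rho / 4 := by
      have c1 : (w : ℝ) ≤ S.V := by exact_mod_cast hw
      have c2 : (w : ℝ) * S.h ≤ S.V * S.h := mul_le_mul_of_nonneg_right c1 hOk.hh.le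
      have c3 := hOk.hr0
      nlinarith
    have := one_shift S (R := fun t => ShR S ε₀ θ φ t w)
      (O := fun t => OSh S ε₀ (fun t => oo S ε₁ θ k t * θ t)
        (fun t => oo S ε₁ θ k t * φ t) t w) (f := F1 S ε₁ θ k) (θ := θ) (s := s) (k := k)
      (w : ℤ) (fun t ht a b c d e f g i => hSh w t hw ht a b c d e f g i) hF hRel.gen hkN
    refine (this.trans ?_).trans hbase
    have h4 := hRel.shf w hwh
    nlinarith
  · calc ∑ p ∈ S.Q, 1 / (p : ℝ) * S.cnt (fun t => t - S.l p ∈ S.I ∧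
          ¬ OEd S ε₀ (fun t => oo S ε₁ θ k t * θ t) (fun t => oo S ε₁ θ k t * φ t) p t)
        ≤ ∑ p ∈ S.Q, 1 / (p : ℝ) * (2 * S.cnt (fun t => t - S.l p ∈ S.I ∧
          ¬ EdR S ε₀ θ φ p t) + (2 * κ + 3 * ε) * S.N) :=
          Finset.sum_le_sum fun p hp => mul_le_mul_of_nonneg_left (hedge p (Or.inl hp))
            (by positivity)
      _ = 2 * ∑ p ∈ S.Q, 1 / (p : ℝ) * S.cnt (fun t => t - S.l p ∈ S.I ∧
          ¬ EdR S ε₀ θ φ p t) + W * ((2 * κ + 3 * ε) * S.N) := by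
          rw [hW, Finset.mul_sum, Finset.sum_mul, ← Finset.sum_add_distrib]
          exact Finset.sum_congr rfl fun p _ => by ring
      _ ≤ 2 * (ε * S.N) + W * ((2 * κ + 3 * ε) * S.N) := by
          have := hRel.edg
          linarith
      _ ≤ 10 * (1 + W) * (κ + ε) * S.N := by
          have c1 : 0 ≤ W * S.N := by positivity
          have c2 : 0 ≤ W * S.N * κ := by positivity
          have c3 : 0 ≤ W * S.N * ε := by positivity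
          have c4 : 0 ≤ S.N * κ := by positivity
          have c5 : 0 ≤ S.N * ε := by positivity
          nlinarith
  · refine ((hedge 2 (Or.inr rfl)).trans ?_).trans hbase
    have h4 := hRel.two
    nlinarith

end Pool.Agent.H79.N4D
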